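import Pool.Agent.H99.Trap.Defs2

/-!
# TRAP, module I2: the test functional is bounded and Skorokhod continuous
-/

namespace Pool.Agent.H99.Trap

open MeasureTheory ProbabilityTheory Filter
open scoped ENNReal NNReal Topology

namespace I2

lemma hfun_nonneg (C : ℝ) (θ : ℝ) (z : Fin 3 → ℝ) : 0 ≤ hfun C θ z := by
  unfold hfun
  positivity

lemma hfun_le_one (C : ℝ) {θ : ℝ} (hθ : 0 < θ) (z : Fin 3 → ℝ) : hfun C θ z ≤ 1 := by
  unfold hfun
  have h1 : min 1 (max 0 (|z 0| - C)) ≤ 1 := min_le_left _ _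
  have h2 : max 0 (1 - |z 1| / θ) ≤ 1 := by
    apply max_le zero_le_one
    have : 0 ≤ |z 1| / θ := by positivity
    linarith
  have h3 : max 0 (1 - |z 2| / θ) ≤ 1 := by
    apply max_le zero_le_one
    have : 0 ≤ |z 2| / θ := by positivity
    linarith
  have h4 : max 0 (1 - |z 1| / θ) * max 0 (1 - |z 2| / θ) ≤ 1 :=
    mul_le_one₀ h2 (le_max_left _ _) h3
  exact mul_le_one₀ h1 (by positivity) h4

lemma continuous_hfun (C θ : ℝ) : Continuous (hfun C θ) := by
  unfold hfun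
  fun_prop

/-- the integrand of `Phi` -/
noncomputable def integrand (C θ ε : ℝ) (x : UI → Fin 3 → ℝ) (p : UI × UI) : ℝ :=
  if ε ≤ (p.1 : ℝ) - p.2 then
    ((p.1 : ℝ) - p.2)⁻¹ * hfun C θ (fun i => (x p.1 i - x p.2 i) / √((p.1 : ℝ) - p.2)) else 0

lemma Phi_eq (C θ ε : ℝ) (x : UI → Fin 3 → ℝ) : Phi C θ ε x = ∫ p, integrand C θ ε x p := rfl

lemma integrand_bound (C : ℝ) {θ ε : ℝ} (hθ : 0 < θ) (hε : 0 < ε) (x : UI → Fin 3 → ℝ)
    (p : UI × UI) : ‖integrand C θ ε x p‖ ≤ ε⁻¹ := by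
  unfold integrand
  split_ifs with h
  · have h0 : 0 < (p.1 : ℝ) - p.2 := lt_of_lt_of_le hε h
    rw [Real.norm_eq_abs, abs_of_nonneg (mul_nonneg (inv_nonneg.2 h0.le) (hfun_nonneg _ _ _))]
    calc ((p.1 : ℝ) - p.2)⁻¹ * hfun C θ (fun i => (x p.1 i - x p.2 i) / √((p.1 : ℝ) - p.2))
        ≤ ((p.1 : ℝ) - p.2)⁻¹ * 1 :=
          mul_le_mul_of_nonneg_left (hfun_le_one C hθ _) (inv_nonneg.2 h0.le)
      _ = ((p.1 : ℝ) - p.2)⁻¹ := mul_one _
      _ ≤ ε⁻¹ := inv_anti₀ hε h
  · simpa using hε.le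

/-- points of `ε`-oscillation -/
lemma countable_osc (y : UI → Fin 3 → ℝ) (hy : IsCadlag y) {ε : ℝ} (hε : 0 < ε) :
    {s : UI | ¬ ∀ᶠ u in 𝓝 s, dist (y u) (y s) < ε}.Countable := by
  set D := {s : UI | ¬ ∀ᶠ u in 𝓝 s, dist (y u) (y s) < ε} with hD
  have hloc : ∀ t : UI, ∀ᶠ s in 𝓝[≠] t, s ∉ D := by
    intro t
    rw [← Set.Iio_union_Ioi, nhdsWithin_union, eventually_sup]
    have key : ∀ (S : Set UI) (l : Fin 3 → ℝ), IsOpen S → Tendsto y (𝓝[S] t) (𝓝 l) →
        ∀ᶠ s in 𝓝[S] t, s ∉ D := by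
      intro S l hS hl
      have h1 : ∀ᶠ u in 𝓝[S] t, dist (y u) l < ε / 2 :=
        hl.eventually (Metric.ball_mem_nhds l (half_pos hε))
      rw [eventually_nhdsWithin_iff] at h1 ⊢
      obtain ⟨V, hV, hVo, htV⟩ := mem_nhds_iff.1 h1
      filter_upwards [hVo.mem_nhds htV] with s hsV hsS hsD
      apply hsD
      filter_upwards [hVo.mem_nhds hsV, hS.mem_nhds hsS] with u huV huS
      have a1 := hV huV huS
      have a2 := hV hsV hsS
      calc dist (y u) (y s) ≤ dist (y u) l + dist (y s) l := dist_triangle_right _ _ _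
        _ < ε := by linarith
    constructor
    · obtain ⟨l, hl⟩ := hy.2 t
      exact key _ l isOpen_Iio hl
    · exact key _ (y t) isOpen_Ioi ((hy.1 t).tendsto.mono_left
        (nhdsWithin_mono _ Set.Ioi_subset_Ici_self))
  have hex : ∀ t : UI, {s | s ≠ t → s ∉ D} ∈ 𝓝 t := by
    intro t
    have := hloc t
    rw [eventually_nhdsWithin_iff] at this
    filter_upwards [this] with s hs hne
    exact hs hne
  obtain ⟨S, hSc, hSu⟩ := TopologicalSpace.countable_cover_nhds hex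
  apply hSc.mono
  intro s hs
  have : s ∈ ⋃ x ∈ S, {s | s ≠ x → s ∉ D} := by rw [hSu]; trivial
  simp only [Set.mem_iUnion, Set.mem_ofPred_eq] at this
  obtain ⟨t, htS, ht⟩ := this
  by_cases hst : s = t
  · rwa [hst]
  · exact absurd hs (ht hst)

lemma countable_disc (y : UI → Fin 3 → ℝ) (hy : IsCadlag y) :
    {s : UI | ¬ ContinuousAt y s}.Countable := by
  have h : {s : UI | ¬ ContinuousAt y s} ⊆
      ⋃ n : ℕ, {s : UI | ¬ ∀ᶠ u in 𝓝 s, dist (y u) (y s) < 1 / ((n : ℝ) + 1)} := by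
    intro s hs
    by_contra hcon
    simp only [Set.mem_iUnion, Set.mem_ofPred_eq, not_exists, not_not] at hcon
    apply hs
    rw [Set.mem_ofPred_eq] at hs
    apply Metric.tendsto_nhds.2
    intro e he
    obtain ⟨n, hn⟩ := exists_nat_one_div_lt he
    filter_upwards [hcon n] with u hu
    exact hu.trans hn
  exact (Set.countable_iUnion fun n => countable_osc y hy (by positivity)).mono h

/-- dyadic approximation from the right -/
noncomputable def appr (n : ℕ) (k : ℕ) : UI :=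
  Set.projIcc 0 1 zero_le_one (((k : ℝ) + 1) / ((n : ℝ) + 1))

lemma measurable_cadlag (y : UI → Fin 3 → ℝ) (hy : IsCadlag y) : Measurable y := by
  have hm : ∀ n : ℕ, Measurable (fun s : UI => y (appr n ⌊(s : ℝ) * ((n : ℝ) + 1)⌋₊)) := by
    intro n
    have h1 : Measurable (fun s : UI => ⌊(s : ℝ) * ((n : ℝ) + 1)⌋₊) :=
      Nat.measurable_floor.comp (measurable_subtype_coe.mul_const _)
    exact (measurable_from_nat (f := fun k => y (appr n k))).comp h1
  apply measurable_of_tendsto_metrizable hm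
  rw [tendsto_pi_nhds]
  intro s
  have hle : ∀ n : ℕ, s ≤ appr n ⌊(s : ℝ) * ((n : ℝ) + 1)⌋₊ := by
    intro n
    have hpos : (0 : ℝ) < (n : ℝ) + 1 := by positivity
    have h1 : (s : ℝ) * ((n : ℝ) + 1) < (⌊(s : ℝ) * ((n : ℝ) + 1)⌋₊ : ℝ) + 1 :=
      Nat.lt_floor_add_one _
    have h2 : (s : ℝ) < ((⌊(s : ℝ) * ((n : ℝ) + 1)⌋₊ : ℝ) + 1) / ((n : ℝ) + 1) := by
      rwa [lt_div_iff₀ hpos]
    rw [← Subtype.coe_le_coe]
    unfold appr
    rw [Set.coe_projIcc]
    exact le_max_of_le_right (le_min s.2.2 h2.le)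
  have hlim : Tendsto (fun n : ℕ => appr n ⌊(s : ℝ) * ((n : ℝ) + 1)⌋₊) atTop (𝓝 s) := by
    have hs : s = Set.projIcc 0 1 zero_le_one (s : ℝ) := by
      rw [Set.projIcc_val]
    have h3 : Tendsto (fun n : ℕ => ((⌊(s : ℝ) * ((n : ℝ) + 1)⌋₊ : ℝ) + 1) / ((n : ℝ) + 1))
        atTop (𝓝 (s : ℝ)) := by
      have h4 : Tendsto (fun n : ℕ => (s : ℝ) + 1 / ((n : ℝ) + 1)) atTop (𝓝 ((s : ℝ) + 0)) :=
        tendsto_const_nhds.add tendsto_one_div_add_atTop_nhds_zero_nat
      rw [add_zero] at h4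
      apply tendsto_of_tendsto_of_tendsto_of_le_of_le tendsto_const_nhds h4
      · intro n
        have hpos : (0 : ℝ) < (n : ℝ) + 1 := by positivity
        have h1 : (s : ℝ) * ((n : ℝ) + 1) < (⌊(s : ℝ) * ((n : ℝ) + 1)⌋₊ : ℝ) + 1 :=
          Nat.lt_floor_add_one _
        exact ((lt_div_iff₀ hpos).2 h1).le
      · intro n
        have hpos : (0 : ℝ) < (n : ℝ) + 1 := by positivity
        have h1 : (⌊(s : ℝ) * ((n : ℝ) + 1)⌋₊ : ℝ) ≤ (s : ℝ) * ((n : ℝ) + 1) :=
          Nat.floor_le (mul_nonneg s.2.1 hpos.le)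
        show ((⌊(s : ℝ) * ((n : ℝ) + 1)⌋₊ : ℝ) + 1) / ((n : ℝ) + 1) ≤ (s : ℝ) + 1 / ((n : ℝ) + 1)
        rw [div_le_iff₀ hpos, add_mul, one_div, inv_mul_cancel₀ hpos.ne']
        linarith
    have h5 := (continuous_projIcc (h := (zero_le_one : (0:ℝ) ≤ 1))).continuousAt.tendsto.comp h3
    rw [← hs] at h5
    exact h5
  have h6 : Tendsto (fun n : ℕ => appr n ⌊(s : ℝ) * ((n : ℝ) + 1)⌋₊) atTop (𝓝[≥] s) :=
    tendsto_nhdsWithin_iff.2 ⟨hlim, Eventually.of_forall hle⟩
  exact (hy.1 s).tendsto.comp h6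

/-- J1 convergence gives pointwise convergence at the continuity points of the limit -/
lemma J1_pointwise {x : ℕ → UI → Fin 3 → ℝ} {y : UI → Fin 3 → ℝ} (h : J1Tendsto x y) {u : UI}
    (hu : ContinuousAt y u) : Tendsto (fun n => x n u) atTop (𝓝 (y u)) := by
  obtain ⟨lam, hl, hx⟩ := h
  have hv : Tendsto (fun n => (lam n).symm u) atTop (𝓝 u) := by
    rw [Metric.tendsto_nhds]
    intro e he
    filter_upwards [Metric.tendstoUniformly_iff.1 hl e he] with n hn
    have := hn ((lam n).symm u)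
    rw [OrderIso.apply_symm_apply] at this
    exact this
  have h1 : Tendsto (fun n => y ((lam n).symm u)) atTop (𝓝 (y u)) := hu.tendsto.comp hv
  have h2 : Tendsto (fun n => dist (y ((lam n).symm u)) (x n u)) atTop (𝓝 0) := by
    rw [Metric.tendsto_nhds]
    intro e he
    filter_upwards [Metric.tendstoUniformly_iff.1 hx e he] with n hn
    have := hn ((lam n).symm u)
    rw [OrderIso.apply_symm_apply] at this
    rw [Real.dist_0_eq_abs, abs_of_nonneg dist_nonneg]
    exact this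
  exact (tendsto_iff_of_dist h2).1 h1

lemma measurable_integrand (C θ ε : ℝ) (x : UI → Fin 3 → ℝ) (hx : Measurable x) :
    Measurable (integrand C θ ε x) := by
  unfold integrand
  have hd : Measurable (fun p : UI × UI => (p.1 : ℝ) - p.2) :=
    (measurable_subtype_coe.comp measurable_fst).sub (measurable_subtype_coe.comp measurable_snd)
  apply Measurable.ite (measurableSet_le measurable_const hd) _ measurable_const
  apply hd.inv.mul
  apply (continuous_hfun C θ).measurable.comp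
  apply measurable_pi_lambda
  intro i
  apply Measurable.div
  · exact ((measurable_pi_apply i).comp (hx.comp measurable_fst)).sub
      ((measurable_pi_apply i).comp (hx.comp measurable_snd))
  · exact Real.continuous_sqrt.measurable.comp hd

end I2

open I2

theorem Phi_bdd (C : ℝ) {θ ε : ℝ} (hθ : 0 < θ) (hε : 0 < ε) : ∃ M, ∀ x, |Phi C θ ε x| ≤ M := by
  refine ⟨ε⁻¹ * (volume : Measure (UI × UI)).real Set.univ, fun x => ?_⟩
  rw [Phi_eq, ← Real.norm_eq_abs]
  exact norm_integral_le_of_norm_le_const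
    (Eventually.of_forall fun p => integrand_bound C hθ hε x p)

theorem Phi_J1 (C : ℝ) {θ ε : ℝ} (hθ : 0 < θ) (hε : 0 < ε) : J1Continuous (Phi C θ ε) := by
  intro x y hx hy hxy
  simp only [Phi_eq]
  have hnull : (volume : Measure UI) {s : UI | ¬ ContinuousAt y s} = 0 :=
    (countable_disc y hy).measure_zero _
  have hae : ∀ᵐ s : UI, ContinuousAt y s := by
    rw [ae_iff]; exact hnull
  have h1 : ∀ᵐ p : UI × UI, ContinuousAt y p.1 :=
    Measure.quasiMeasurePreserving_fst.ae hae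
  have h2 : ∀ᵐ p : UI × UI, ContinuousAt y p.2 :=
    Measure.quasiMeasurePreserving_snd.ae hae
  apply tendsto_integral_of_dominated_convergence (fun _ => ε⁻¹)
  · intro n
    exact (measurable_integrand C θ ε (x n) (measurable_cadlag _ (hx n))).aestronglyMeasurable
  · exact integrable_const _
  · intro n
    exact Eventually.of_forall fun p => integrand_bound C hθ hε (x n) p
  · filter_upwards [h1, h2] with p hp1 hp2
    have t1 := J1_pointwise hxy hp1
    have t2 := J1_pointwise hxy hp2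
    unfold integrand
    split_ifs with h
    · apply Tendsto.const_mul
      apply ((continuous_hfun C θ).tendsto _).comp
      rw [tendsto_pi_nhds]
      intro i
      apply Tendsto.div_const
      exact ((continuous_apply i).continuousAt.tendsto.comp t1).sub
        ((continuous_apply i).continuousAt.tendsto.comp t2)
    · exact tendsto_const_nhds

end Pool.Agent.H99.Trap
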